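import Pool.Agent.H31.SW.TargetsL2
import Pool.Agent.H31.SW.Tools2

/-!
# Board `swl_modules`, row DE: the decomposition of the Fourier transform of the product of two
test functions
-/

set_option autoImplicit false

open MeasureTheory Set Filter Complex
open scoped Topology

namespace Pool.Agent.H1.SWL

open Pool.Agent.H31.SW
open Pool.Agent.H29.DW (dg Rl lf)

/-! ### The weights -/

open scoped Classical in
private noncomputable def Uw (r : Bool) (k : ℕ) (Λ : ℂ) (B : ℝ) (z : ℂ) : ℝ :=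
  if (1 / 1000 * ‖Λ‖ ≤ ‖pj r z - Λ‖ ∨ ‖Λ‖ ≤ 1) then B * (1 + ‖Λ‖ + ‖pj r z‖) ^ (-(k : ℝ)) else B

private lemma Uw_mono {r : Bool} {k : ℕ} {Λ : ℂ} {B B' : ℝ} (h : B ≤ B') (z : ℂ) :
    Uw r k Λ B z ≤ Uw r k Λ B' z := by
  unfold Uw
  split_ifs
  · exact mul_le_mul_of_nonneg_right h (Real.rpow_nonneg (by positivity) _)
  · exact h

/-- composition with the real part -/
private lemma db_comp_pj {n : ℕ} {U : ℂ → ℝ} {F : ℂ → ℂ} (r : Bool) (h : DB n U univ F) :
    DB n (fun z => U (pj r z)) univ (fun z => F (pj r z)) := by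
  cases r with
  | false =>
    have e : (pj false) = id := funext fun z => pj_false z
    simpa [e] using h
  | true =>
    induction n generalizing F with
    | zero =>
      exact ⟨(continuousOn_univ.2 ((continuousOn_univ.1 h.1).comp (continuous_pj true))),
        fun z _ => h.2 _ (mem_univ _)⟩
    | succ n ih =>
      obtain ⟨h0, F₁, F₂, h1, h2, h3⟩ := h
      refine ⟨fun z _ => h0 _ (mem_univ _), fun z => F₁ (pj true z), fun _ => 0, fun z _ => ?_,
        ih h2, DB.zero _ _ _ fun z _ => (norm_nonneg _).trans (h0 _ (mem_univ _))⟩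
      have h4 : HasFDerivAt (fun z : ℂ => pj true z)
          (Complex.ofRealCLM.comp Complex.reCLM) z := by
        have e : (fun z : ℂ => pj true z) = fun z : ℂ => ((z.re : ℝ) : ℂ) :=
          funext fun z => pj_true z
        rw [e]
        exact (Complex.ofRealCLM.comp Complex.reCLM).hasFDerivAt
      have h5 := h1 (pj true z) (mem_univ _)
      refine hd_iff (HasFDerivAt.comp z h5 h4) ?_ ?_ <;> simp

open scoped Classical in
/-- smooth functions which vanish near zero and are constant far away -/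
private lemma db_out (n : ℕ) : ∀ F : ℂ → ℂ, (∀ m : ℕ, ContDiff ℝ m F) →
    (∀ z, ‖z‖ < 1 / 1000 → F z = 0) → (∃ c, ∀ z, 1 / 500 < ‖z‖ → F z = c) →
    ∃ C : ℝ, 0 ≤ C ∧ DB n (fun x => if ‖x‖ < 1 / 1000 then 0 else C) univ F := by
  have hbd : ∀ F : ℂ → ℂ, (∀ m : ℕ, ContDiff ℝ m F) → (∃ c, ∀ z, 1 / 500 < ‖z‖ → F z = c) →
      ∃ C : ℝ, 0 ≤ C ∧ ∀ z, ‖F z‖ ≤ C := by
    rintro F hF ⟨c, hc⟩
    have h1 : Continuous (fun z => F z - c) := (hF 0).continuous.sub continuous_const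
    have h2 : HasCompactSupport (fun z => F z - c) := by
      refine HasCompactSupport.intro (isCompact_closedBall (0 : ℂ) (1 / 500)) fun z hz => ?_
      rw [Metric.mem_closedBall, dist_eq_norm, sub_zero, not_le] at hz
      rw [hc z hz, sub_self]
    obtain ⟨M, hM⟩ := h2.exists_bound_of_continuous h1
    refine ⟨max M 0 + ‖c‖, by positivity, fun z => ?_⟩
    have h3 : F z = (F z - c) + c := by ring
    rw [h3]
    exact (norm_add_le _ _).trans (add_le_add ((hM z).trans (le_max_left _ _)) le_rfl)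
  induction n with
  | zero =>
    intro F hF h0 hc
    obtain ⟨C, hC, h1⟩ := hbd F hF hc
    refine ⟨C, hC, continuousOn_univ.2 (hF 0).continuous, fun z _ => ?_⟩
    dsimp only
    split_ifs with hz
    · rw [h0 z hz, norm_zero]
    · exact h1 z
  | succ n ih =>
    intro F hF h0 hc
    have hd : ∀ d : ℂ, (∀ m : ℕ, ContDiff ℝ m (fun z => _root_.fderiv ℝ F z d)) ∧
        (∀ z, ‖z‖ < 1 / 1000 → _root_.fderiv ℝ F z d = 0) ∧
        ∃ c, ∀ z, 1 / 500 < ‖z‖ → _root_.fderiv ℝ F z d = c := by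
      intro d
      refine ⟨fun m => ?_, fun z hz => ?_, 0, fun z hz => ?_⟩
      · exact ((hF (m + 1)).fderiv_right (m := m) (by push_cast; exact le_rfl)).clm_apply
          contDiff_const
      · have h1 : F =ᶠ[𝓝 z] fun _ => 0 := by
          have hopen : IsOpen {z : ℂ | ‖z‖ < 1 / 1000} := isOpen_lt (by fun_prop) continuous_const
          filter_upwards [hopen.mem_nhds hz] with w hw using h0 w hw
        rw [h1.fderiv_eq]
        simp
      · obtain ⟨c, hc⟩ := hc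
        have h1 : F =ᶠ[𝓝 z] fun _ => c := by
          have hopen : IsOpen {z : ℂ | 1 / 500 < ‖z‖} := isOpen_lt continuous_const (by fun_prop)
          filter_upwards [hopen.mem_nhds hz] with w hw using hc w hw
        rw [h1.fderiv_eq]
        simp
    obtain ⟨C₁, hC₁, h1⟩ := ih _ (hd 1).1 (hd 1).2.1 (hd 1).2.2
    obtain ⟨C₂, hC₂, h2⟩ := ih _ (hd I).1 (hd I).2.1 (hd I).2.2
    obtain ⟨C, hC, h3⟩ := hbd F hF hc
    refine ⟨C + C₁ + C₂, by positivity, fun z _ => ?_, _, _,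
      fun z _ => hd_of_fderiv ((hF 1).differentiable (by norm_num) z), ?_, ?_⟩
    · dsimp only
      split_ifs with hz
      · rw [h0 z hz, norm_zero]
      · have := h3 z
        linarith
    · refine h1.mono subset_rfl fun z _ => ?_
      split_ifs
      · exact le_rfl
      · linarith
    · refine h2.mono subset_rfl fun z _ => ?_
      split_ifs
      · exact le_rfl
      · linarith

/-! ### The derivatives of the Fourier transform -/

private lemma db_lin (k : ℕ) (c d : ℂ) (hc : ‖c‖ ≤ 1) (hd : ‖d‖ ≤ 1) :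
    DB k (fun _ => 4) (Metric.ball 1 1) (fun w => c * ((w.re : ℝ) : ℂ) + d * ((w.im : ℝ) : ℂ)) := by
  have hbd : ∀ z ∈ Metric.ball (1 : ℂ) 1, ‖c * ((z.re : ℝ) : ℂ) + d * ((z.im : ℝ) : ℂ)‖ ≤ 4 := by
    intro z hz
    have h1 : ‖z‖ ≤ 2 := by
      rw [Metric.mem_ball, dist_eq_norm] at hz
      have := norm_add_le (z - 1) 1
      rw [sub_add_cancel, norm_one] at this
      linarith
    have h2 : ‖((z.re : ℝ) : ℂ)‖ ≤ 2 := by
      rw [Complex.norm_real]
      exact (Complex.abs_re_le_norm z).trans h1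
    have h3 : ‖((z.im : ℝ) : ℂ)‖ ≤ 2 := by
      rw [Complex.norm_real]
      exact (Complex.abs_im_le_norm z).trans h1
    refine (norm_add_le _ _).trans ?_
    rw [norm_mul, norm_mul]
    nlinarith [norm_nonneg c, norm_nonneg d, norm_nonneg ((z.re : ℝ) : ℂ),
      norm_nonneg ((z.im : ℝ) : ℂ)]
  cases k with
  | zero => exact ⟨by fun_prop, hbd⟩
  | succ k =>
    refine ⟨hbd, fun _ => c, fun _ => d, fun z _ => ?_,
      DB.const _ _ _ _ fun z _ => by linarith, DB.const _ _ _ _ fun z _ => by linarith⟩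
    have h1 : HasFDerivAt (fun w : ℂ => c * ((w.re : ℝ) : ℂ) + d * ((w.im : ℝ) : ℂ))
        (c • (Complex.ofRealCLM.comp Complex.reCLM) + d • (Complex.ofRealCLM.comp Complex.imCLM))
        z :=
      ((Complex.ofRealCLM.comp Complex.reCLM).hasFDerivAt.const_mul c).add
        ((Complex.ofRealCLM.comp Complex.imCLM).hasFDerivAt.const_mul d)
    refine hd_iff h1 ?_ ?_ <;> simp

private lemma ds_cont (hHU : W_HU) {k : ℕ} {G : ℝ} {q : ℂ → ℂ} {a Λ : ℂ}
    (hq : DS k G 1 (1 / 10000) q) (ha : a ≠ 0) (ha' : ‖a‖ ≤ 1 / 10000) :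
    Continuous (fun w => q w * EE (Λ * hh a w)) := by
  have h1 : DB 0 (fun _ => (1 : ℝ)) (Metric.ball 1 (1 / 50)) (fun w => EE (Λ * hh a w)) := by
    refine ⟨fun w hw => ?_, fun w _ => (norm_EE _).le⟩
    have h2 := ((hHU a ha ha').1 w hw).continuousAt
    have h3 : ContinuousAt (fun w => EE (Λ * hh a w)) w :=
      continuous_EE.continuousAt.comp (continuousAt_const.mul h2)
    exact h3.continuousWithinAt
  have h2 : DS 0 G 1 (1 / 10000) q := hq.of_le (Nat.zero_le _)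
  exact (h2.mul_DB' h1 Metric.isOpen_ball (by
    intro z hz
    rw [Metric.mem_closedBall] at hz
    rw [Metric.mem_ball]
    linarith)).continuous

private lemma db_ff (hFD : W_FD) (hOU : W_OU) (hHU : W_HU) (k n : ℕ) :
    ∃ C : ℝ, 0 ≤ C ∧ ∀ (r : Bool) (q : ℂ → ℂ) (G : ℝ) (a Λ : ℂ), 0 ≤ G →
      DS k G 1 (1 / 10000) q → a ≠ 0 → ‖a‖ ≤ 1 / 10000 → Rl r a → Rl r Λ →
      DB n (Uw r k Λ (C * G)) univ (FF r (fun w => q w * EE (Λ * hh a w))) := by
  obtain ⟨C0, hC0, hO⟩ := hOU k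
  have hbd : ∀ (r : Bool) (q : ℂ → ℂ) (G : ℝ) (a Λ : ℂ), 0 ≤ G →
      DS k G 1 (1 / 10000) q → a ≠ 0 → ‖a‖ ≤ 1 / 10000 → Rl r a → Rl r Λ → ∀ z,
      ‖FF r (fun w => q w * EE (Λ * hh a w)) z‖ ≤ Uw r k Λ ((C0 + 1) * G) z := by
    intro r q G a Λ hG hq ha ha' hra hrΛ z
    unfold Uw
    split_ifs with hc
    · refine (hO r q G a Λ z hG hq ha ha' hra hrΛ hc).trans ?_
      refine mul_le_mul_of_nonneg_right ?_ (Real.rpow_nonneg (by positivity) _)
      nlinarith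
    · have h1 : ‖FF r (fun w => q w * EE (Λ * hh a w)) z‖ ≤
          (2 * (1 / 10000) + 8 * (1 / 10000) ^ 2) * G := by
        unfold FF
        refine norm_itg_le (w₀ := 1) (by norm_num) hG (fun w => ?_) (fun w hw => ?_)
        · rw [norm_mul, norm_mul, norm_EE, norm_EE, one_mul, mul_one]
          exact hq.norm_le hG w
        · show EE (z * w) * (q w * EE (Λ * hh a w)) = 0
          rw [hq.eq_zero hw, zero_mul, mul_zero]
      refine h1.trans ?_
      nlinarith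
  have hHD : ∀ (r : Bool) (q : ℂ → ℂ) (G : ℝ) (a Λ : ℂ), 0 ≤ G →
      DS k G 1 (1 / 10000) q → a ≠ 0 → ‖a‖ ≤ 1 / 10000 → ∀ z,
      HD (FF r (fun w => q w * EE (Λ * hh a w)))
        (FF r (fun w => ((-I * ((w.re : ℝ) : ℂ) + 0 * ((w.im : ℝ) : ℂ)) * q w) *
          EE (Λ * hh a w)))
        (FF r (fun w => ((0 * ((w.re : ℝ) : ℂ) + I * ((w.im : ℝ) : ℂ)) * q w) *
          EE (Λ * hh a w))) z := by
    intro r q G a Λ hG hq ha ha' z
    have h1 := hFD r (fun w => q w * EE (Λ * hh a w)) 2 (ds_cont hHU hq ha ha') (fun w hw => by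
      have h2 : 1 / 10000 < ‖w - 1‖ := by
        have := norm_add_le (w - 1) 1
        rw [sub_add_cancel, norm_one] at this
        linarith
      rw [hq.eq_zero h2, zero_mul]) z
    have e1 : (fun w : ℂ => -(I * ((w.re : ℝ) : ℂ)) * (q w * EE (Λ * hh a w))) =
        (fun w => ((-I * ((w.re : ℝ) : ℂ) + 0 * ((w.im : ℝ) : ℂ)) * q w) *
          EE (Λ * hh a w)) := by
      funext w
      ring
    have e2 : (fun w : ℂ => (I * ((w.im : ℝ) : ℂ)) * (q w * EE (Λ * hh a w))) =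
        (fun w => ((0 * ((w.re : ℝ) : ℂ) + I * ((w.im : ℝ) : ℂ)) * q w) *
          EE (Λ * hh a w)) := by
      funext w
      ring
    rw [e1, e2] at h1
    exact h1
  have hmul : ∀ (c d : ℂ), ‖c‖ ≤ 1 → ‖d‖ ≤ 1 → ∀ (q : ℂ → ℂ) (G : ℝ),
      DS k G 1 (1 / 10000) q → DS k (2 ^ k * (G * 4)) 1 (1 / 10000)
        (fun w => (c * ((w.re : ℝ) : ℂ) + d * ((w.im : ℝ) : ℂ)) * q w) := by
    intro c d hc hd q G hq
    have h1 := hq.mul_DB' (db_lin k c d hc hd) Metric.isOpen_ball (by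
      intro z hz
      rw [Metric.mem_closedBall] at hz
      rw [Metric.mem_ball]
      linarith)
    have e : (fun w => (c * ((w.re : ℝ) : ℂ) + d * ((w.im : ℝ) : ℂ)) * q w) =
        fun w => q w * (c * ((w.re : ℝ) : ℂ) + d * ((w.im : ℝ) : ℂ)) := by
      funext w
      ring
    rw [e]
    exact h1
  induction n with
  | zero =>
    refine ⟨C0 + 1, by linarith, fun r q G a Λ hG hq ha ha' hra hrΛ => ⟨?_, fun z _ =>
      hbd r q G a Λ hG hq ha ha' hra hrΛ z⟩⟩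
    exact fun z _ => (hHD r q G a Λ hG hq ha ha' z).continuousAt.continuousWithinAt
  | succ n ih =>
    obtain ⟨C, hC, h⟩ := ih
    refine ⟨(C0 + 1) + C * (2 ^ k * 4), by positivity, fun r q G a Λ hG hq ha ha' hra hrΛ =>
      ⟨fun z _ => ?_, _, _, fun z _ => hHD r q G a Λ hG hq ha ha' z, ?_, ?_⟩⟩
    · refine (hbd r q G a Λ hG hq ha ha' hra hrΛ z).trans (Uw_mono ?_ z)
      have : 0 ≤ C * (2 ^ k * 4) * G := by positivity
      nlinarith
    · refine (h r _ (2 ^ k * (G * 4)) a Λ (by positivity)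
        (hmul (-I) 0 (by simp) (by simp) q G hq) ha ha' hra hrΛ).mono subset_rfl
        fun z _ => Uw_mono ?_ z
      have : 0 ≤ (C0 + 1) * G := by positivity
      nlinarith
    · refine (h r _ (2 ^ k * (G * 4)) a Λ (by positivity)
        (hmul 0 I (by simp) (by simp) q G hq) ha ha' hra hrΛ).mono subset_rfl
        fun z _ => Uw_mono ?_ z
      have : 0 ≤ (C0 + 1) * G := by positivity
      nlinarith

/-! ### The outer part -/

private noncomputable def Bo (x : ℂ) : ℂ := 1 - ((b2 x : ℝ) : ℂ)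

private lemma bo_smooth (m : ℕ) : ContDiff ℝ m Bo := by
  unfold Bo
  exact contDiff_const.sub (Complex.ofRealCLM.contDiff.comp b2.contDiff)

private lemma bo_zero (z : ℂ) (hz : ‖z‖ ≤ 1 / 1000) : Bo z = 0 := by
  unfold Bo
  rw [b2.one_of_mem_closedBall]
  · simp
  · rw [Metric.mem_closedBall, dist_eq_norm, sub_zero]
    exact hz

private lemma b2_zero (z : ℂ) (hz : 1 / 500 ≤ ‖z‖) : b2 z = 0 := by
  apply b2.zero_of_le_dist
  rw [dist_eq_norm, sub_zero]
  exact hz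

private lemma db_fout (hFD : W_FD) (hOU : W_OU) (hHU : W_HU) (k N : ℕ) :
    ∃ C : ℝ, 0 ≤ C ∧ ∀ (r : Bool) (q : ℂ → ℂ) (G : ℝ) (a Λ : ℂ), 0 ≤ G →
      DS k G 1 (1 / 10000) q → a ≠ 0 → ‖a‖ ≤ 1 / 10000 → Rl r a → Rl r Λ →
      (‖Λ‖ ≤ 1 → DB N (fun z => C * G * (1 + ‖Λ‖ + ‖pj r z‖) ^ (-(k : ℝ))) univ
        (FF r (fun w => q w * EE (Λ * hh a w)))) ∧
      (1 ≤ ‖Λ‖ → DB N (fun z => C * G * (1 + ‖Λ‖ + ‖pj r z‖) ^ (-(k : ℝ))) univ
        (fun z => FF r (fun w => q w * EE (Λ * hh a w)) z * Bo (Λ⁻¹ * pj r z + -1))) := by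
  classical
  obtain ⟨C, hC, hff⟩ := db_ff hFD hOU hHU k N
  obtain ⟨D, hD, hout⟩ := db_out N Bo bo_smooth (fun z hz => bo_zero z hz.le) ⟨1, fun z hz => by
    unfold Bo
    rw [b2_zero z hz.le]
    simp⟩
  refine ⟨C + 2 ^ N * (C * ((2 * 1) ^ N * D)), by positivity,
    fun r q G a Λ hG hq ha ha' hra hrΛ => ⟨fun hΛ => ?_, fun hΛ => ?_⟩⟩
  · refine (hff r q G a Λ hG hq ha ha' hra hrΛ).mono subset_rfl fun z _ => ?_
    unfold Uw
    rw [if_pos (Or.inr hΛ)]
    refine mul_le_mul_of_nonneg_right ?_ (Real.rpow_nonneg (by positivity) _)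
    have : 0 ≤ 2 ^ N * (C * ((2 * 1) ^ N * D)) * G := by positivity
    nlinarith
  · have hΛ0 : Λ ≠ 0 := by
      intro h
      rw [h, norm_zero] at hΛ
      linarith
    have h1 := hff r q G a Λ hG hq ha ha' hra hrΛ
    have h2 : DB N (fun z => (2 * 1) ^ N * (if ‖Λ⁻¹ * z + -1‖ < 1 / 1000 then 0 else D)) univ
        (fun z => Bo (Λ⁻¹ * z + -1)) :=
      DB.comp_affine hout Λ⁻¹ (-1) 1 le_rfl (by
        rw [norm_inv]
        exact inv_le_one_of_one_le₀ hΛ) (fun _ _ => mem_univ _)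
    have h3 := db_comp_pj r h2
    refine (h1.mul h3).mono subset_rfl fun z _ => ?_
    have hw : 0 ≤ (1 + ‖Λ‖ + ‖pj r z‖) ^ (-(k : ℝ)) := Real.rpow_nonneg (by positivity) _
    have hR : 0 ≤ (C + 2 ^ N * (C * ((2 * 1) ^ N * D))) * G *
        (1 + ‖Λ‖ + ‖pj r z‖) ^ (-(k : ℝ)) := mul_nonneg (by positivity) hw
    split_ifs with hz
    · rw [mul_zero, mul_zero, mul_zero]
      exact hR
    · have hcond : 1 / 1000 * ‖Λ‖ ≤ ‖pj r z - Λ‖ := by
        rw [not_lt] at hz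
        have e : pj r z - Λ = Λ * (Λ⁻¹ * pj r z + -1) := by
          field_simp
          ring
        rw [e, norm_mul, mul_comm]
        exact mul_le_mul_of_nonneg_left hz (norm_nonneg _)
      unfold Uw
      rw [if_pos (Or.inl hcond)]
      have e : 2 ^ N * (C * G * (1 + ‖Λ‖ + ‖pj r z‖) ^ (-(k : ℝ)) * ((2 * 1) ^ N * D)) =
          2 ^ N * (C * ((2 * 1) ^ N * D)) * G * (1 + ‖Λ‖ + ‖pj r z‖) ^ (-(k : ℝ)) := by ring
      rw [e]
      refine mul_le_mul_of_nonneg_right ?_ hw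
      have : 0 ≤ C * G := by positivity
      nlinarith

/-- one piece of the outer part -/
private lemma ds_piece (k N : ℕ) (Cb : ℝ) (hCb : 0 ≤ Cb) {r : Bool} {B : ℝ} (hB : 0 ≤ B)
    {Λ g : ℂ} {Fo bu : ℂ → ℂ} (hg : Rl r g)
    (hFo : DB N (fun z => B * (1 + ‖Λ‖ + ‖pj r z‖) ^ (-(k : ℝ))) univ Fo)
    (hbu : DS N Cb g 2 bu) :
    DS N (2 ^ N * Cb * 3 ^ k * B * (1 + ‖Λ‖ + ‖g‖) ^ (-(k : ℝ))) g 2 (fun z => Fo z * bu z) := by
  refine (DB.mul hFo hbu).mono subset_rfl fun z _ => ?_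
  by_cases hz : ‖z - g‖ ≤ 2
  · rw [ind_of_mem hz, ind_of_mem hz]
    have h1 : ‖g‖ ≤ ‖pj r z‖ + 2 := by
      have h2 : pj r g = g := pj_of_Rl hg
      have h3 : ‖pj r g - pj r z‖ ≤ 2 := by
        rw [← pj_sub]
        refine (norm_pj_le r _).trans ?_
        rwa [norm_sub_rev]
      have h4 := norm_add_le (pj r g - pj r z) (pj r z)
      rw [sub_add_cancel, h2] at h4
      rw [h2] at h3
      linarith
    have h2 : (1 + ‖Λ‖ + ‖pj r z‖) ^ (-(k : ℝ)) ≤
        3 ^ k * (1 + ‖Λ‖ + ‖g‖) ^ (-(k : ℝ)) := by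
      have hx : 0 < 1 + ‖Λ‖ + ‖pj r z‖ := by positivity
      have hy : 0 < 1 + ‖Λ‖ + ‖g‖ := by positivity
      rw [Real.rpow_neg hx.le, Real.rpow_neg hy.le, Real.rpow_natCast, Real.rpow_natCast,
        ← div_eq_mul_inv, inv_eq_one_div, div_le_div_iff₀ (by positivity) (by positivity),
        one_mul, ← mul_pow]
      refine pow_le_pow_left₀ hy.le ?_ k
      nlinarith [norm_nonneg Λ, norm_nonneg (pj r z)]
    calc 2 ^ N * (B * (1 + ‖Λ‖ + ‖pj r z‖) ^ (-(k : ℝ)) * Cb)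
        ≤ 2 ^ N * (B * (3 ^ k * (1 + ‖Λ‖ + ‖g‖) ^ (-(k : ℝ))) * Cb) := by gcongr
      _ = 2 ^ N * Cb * 3 ^ k * B * (1 + ‖Λ‖ + ‖g‖) ^ (-(k : ℝ)) := by ring
  · rw [ind_of_not_mem (not_le.1 hz), ind_of_not_mem (not_le.1 hz), mul_zero, mul_zero]

/-- the product of two translates of the function `p` -/
private lemma ds_f0 {n : ℕ} {G : ℝ} {p : ℂ → ℂ} (hG : 0 ≤ G) (hp : DS n G 0 (1 / 10000) p)
    (a : ℂ) : DS n (2 ^ n * (G * G)) 1 (1 / 10000)
      (fun w => p (w + a - 1) * (starRingEnd ℂ) (p (w - a - 1))) := by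
  have h1 : DB n (fun w => ind 0 (1 / 10000) G (w + (a - 1))) univ (fun w => p (w + (a - 1))) :=
    DB.comp_add hp (a - 1) (fun _ _ => mem_univ _)
  have h2 : DB n (fun w => ind 0 (1 / 10000) G (w + (-a - 1))) univ
      (fun w => p (w + (-a - 1))) := DB.comp_add hp (-a - 1) (fun _ _ => mem_univ _)
  have h3 := h1.mul h2.conj
  have e : (fun w => p (w + a - 1) * (starRingEnd ℂ) (p (w - a - 1))) =
      fun w => p (w + (a - 1)) * (starRingEnd ℂ) (p (w + (-a - 1))) := by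
    funext w
    rw [show w + a - 1 = w + (a - 1) by ring, show w - a - 1 = w + (-a - 1) by ring]
  rw [e]
  refine h3.mono subset_rfl fun w _ => ?_
  by_cases hw : ‖w - 1‖ ≤ 1 / 10000
  · rw [ind_of_mem hw]
    refine mul_le_mul_of_nonneg_left ?_ (by positivity)
    exact mul_le_mul (ind_le hG) (ind_le hG) (ind_nonneg hG) hG
  · rw [ind_of_not_mem (not_le.1 hw)]
    have h4 : 1 / 10000 < ‖w + (a - 1) - 0‖ ∨ 1 / 10000 < ‖w + (-a - 1) - 0‖ := by
      by_contra hcon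
      push Not at hcon
      apply hw
      have e2 : w - 1 = ((w + (a - 1) - 0) + (w + (-a - 1) - 0)) / 2 := by ring
      rw [e2, norm_div, Complex.norm_ofNat, div_le_iff₀ (by norm_num)]
      refine (norm_add_le _ _).trans ?_
      linarith [hcon.1, hcon.2]
    rcases h4 with h4 | h4
    · rw [ind_of_not_mem h4, zero_mul, mul_zero]
    · rw [ind_of_not_mem h4, mul_zero, mul_zero]

private lemma g2_eq (p : ℂ → ℂ) (c a w : ℂ) (ha : a ≠ 0) :
    G2 p c a w = (p (w + a - 1) * (starRingEnd ℂ) (p (w - a - 1))) * EE (2 * c * a * hh a w) := by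
  unfold G2 GG hh
  have e : 2 * c * a * ((Complex.log (w + a) - Complex.log (w - a)) / (2 * a)) =
      c * Complex.log (w + a) - c * Complex.log (w - a) := by
    field_simp
  rw [e, EE_sub, map_mul]
  ring

/-- the main identity -/
private lemma ft1_eq (r : Bool) (p : ℂ → ℂ) (c a ζ : ℂ) (ha : a ≠ 0) (hra : Rl r a)
    (hrc : Rl r c) (hζ : Rl r ζ) (hΛ : 2 * c * a ≠ 0) (b : ℂ → ℂ) :
    FT1 (2 * c * a) a (fun z => b z * AG r (fun q => p (q.2.2 + q.1 - 1) *
      (starRingEnd ℂ) (p (q.2.2 - q.1 - 1))) a (2 * c * a) z) ζ =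
      FF r (G2 p c a) ζ * b (ζ / (2 * c * a)) := by
  set Λ := 2 * c * a with hΛdef
  have hrΛ : Rl r Λ := Rl_mul (Rl_mul (by intro _; simp) hrc) hra
  have hη : pj r (ζ / Λ) = ζ / Λ := pj_of_Rl (Rl_div hζ hrΛ)
  unfold FT1 AG FF
  dsimp only
  rw [hη]
  have e1 : (fun w => p (w + a - 1) * (starRingEnd ℂ) (p (w - a - 1)) *
        EE (Λ * (hh a w + ζ / Λ * w - psi a (ζ / Λ)))) =
      fun w => EE (-(Λ * psi a (ζ / Λ))) * (EE (ζ * w) * G2 p c a w) := by
    funext w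
    rw [g2_eq p c a w ha, ← hΛdef]
    have e2 : Λ * (hh a w + ζ / Λ * w - psi a (ζ / Λ)) =
        (ζ * w + Λ * hh a w) + -(Λ * psi a (ζ / Λ)) := by
      field_simp
      ring
    rw [e2, EE_add, EE_add]
    ring
  rw [e1, itg_const_mul]
  have e3 : EE (-(Λ * psi a (ζ / Λ))) * EE (Λ * psi a (ζ / Λ)) = 1 := by
    rw [← EE_add, neg_add_cancel, EE_zero]
  calc b (ζ / Λ) * (EE (-(Λ * psi a (ζ / Λ))) * itg r (fun w => EE (ζ * w) * G2 p c a w)) *
        EE (Λ * psi a (ζ / Λ))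
      = (EE (-(Λ * psi a (ζ / Λ))) * EE (Λ * psi a (ζ / Λ))) *
          (itg r (fun w => EE (ζ * w) * G2 p c a w) * b (ζ / Λ)) := by ring
    _ = _ := by rw [e3, one_mul]

private lemma hasSum_opt {α : Type} {f : Option α → ℂ} {s : ℂ} (h : HasSum (fun a => f (some a)) s) :
    HasSum f (f none + s) := by
  classical
  have h1 : HasSum (fun j : Option α => if j = none then f none else 0) (f none) :=
    hasSum_ite_eq none (f none)
  have h2 : HasSum (fun j : Option α => if j = none then 0 else f j) s := by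
    rw [← (Option.some_injective α).hasSum_iff]
    · have e : (fun j : Option α => if j = none then 0 else f j) ∘ some =
          fun a => f (some a) := by
        funext a
        simp
      rw [e]
      exact h
    · intro x hx
      cases x with
      | none => simp
      | some a => exact absurd ⟨a, rfl⟩ hx
  convert h1.add h2 using 1
  funext j
  by_cases hj : j = none
  · rw [if_pos hj, if_pos hj, add_zero, hj]
  · rw [if_neg hj, if_neg hj, zero_add]

theorem pf_DE (hAB : W_AB) (hGP : W_GP) (hFD : W_FD) (hOU : W_OU) (hBU : W_BU) (hHU : W_HU) :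
    W_DE := by
  classical
  intro p hp N k
  obtain ⟨C1, hC1, hout⟩ := db_fout hFD hOU hHU k N
  obtain ⟨bu, hbu1, hbu2⟩ := hBU
  obtain ⟨Cb, hCb, hbu⟩ := hbu1 N
  -- the amplitudes
  have hAr : ∀ r : Bool, ∃ C : ℝ, 0 ≤ C ∧ ∀ a Λ : ℂ, a ≠ 0 → ‖a‖ ≤ 1 / 10000 → Rl r a →
      Rl r Λ → DB N (fun _ => C * (1 + ‖Λ‖) ^ (-(dg r : ℝ) / 2)) (Metric.ball 1 (1 / 100))
        (AG r (fun q => p r (q.2.2 + q.1 - 1) * (starRingEnd ℂ) (p r (q.2.2 - q.1 - 1))) a Λ) :=
    fun r => hAB r _ (hGP p hp r) N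
  choose CA hCA hA using hAr
  have hGr : ∀ r : Bool, ∃ G : ℝ, 0 ≤ G ∧ DS k G 0 (1 / 10000) (p r) := fun r =>
    DS.of_contDiff k (hp.1 r) (fun z hz => hp.2 r z (by rwa [sub_zero] at hz))
  choose G hG hGp using hGr
  obtain ⟨C2, hC2, hb2⟩ : ∃ C : ℝ, 0 ≤ C ∧
      DS N C 1 (1 / 500) (fun z => ((b2 (z - 1) : ℝ) : ℂ)) := by
    refine DS.of_contDiff N (fun m => ?_) (fun z hz => ?_)
    · exact Complex.ofRealCLM.contDiff.comp (b2.contDiff.comp (contDiff_id.sub contDiff_const))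
    · rw [b2_zero _ hz.le]
      simp
  -- constants
  let K1 : Bool → ℝ := fun r => 2 ^ N * (C2 * CA r)
  let K2 : Bool → ℝ := fun r => 2 ^ N * Cb * 3 ^ k * (C1 * (2 ^ k * (G r * G r)))
  have hK1 : ∀ r, 0 ≤ K1 r := fun r => by
    have := hCA r
    positivity
  have hK2 : ∀ r, 0 ≤ K2 r := fun r => by
    have := hG r
    positivity
  refine ⟨K1 true + K1 false + K2 true + K2 false + 1, by
    have := hK1 true; have := hK1 false; have := hK2 true; have := hK2 false; linarith, ?_⟩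
  intro r c a ha ha' hra hrc
  have hle1 : K1 r ≤ K1 true + K1 false + K2 true + K2 false + 1 := by
    have := hK1 true; have := hK1 false; have := hK2 true; have := hK2 false
    cases r <;> linarith
  have hle2 : K2 r ≤ K1 true + K1 false + K2 true + K2 false + 1 := by
    have := hK1 true; have := hK1 false; have := hK2 true; have := hK2 false
    cases r <;> linarith
  set CC := K1 true + K1 false + K2 true + K2 false + 1 with hCC
  set Λ := 2 * c * a with hΛdef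
  have hrΛ : Rl r Λ := Rl_mul (Rl_mul (by intro _; simp) hrc) hra
  have hf : G2 (p r) c a = fun w => (p r (w + a - 1) * (starRingEnd ℂ) (p r (w - a - 1))) *
      EE (Λ * hh a w) := funext fun w => g2_eq (p r) c a w ha
  have hq := ds_f0 (hG r) (hGp r) a
  have hq0 : 0 ≤ 2 ^ k * (G r * G r) := by
    have := hG r
    positivity
  obtain ⟨ho1, ho2⟩ := hout r _ _ a Λ hq0 hq ha ha' hra hrΛ
  rw [← hf] at ho1 ho2
  -- the outer part
  obtain ⟨Fo, hFo, hFo1, hFo2⟩ : ∃ Fo : ℂ → ℂ,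
      DB N (fun z => C1 * (2 ^ k * (G r * G r)) * (1 + ‖Λ‖ + ‖pj r z‖) ^ (-(k : ℝ))) univ Fo ∧
      (‖Λ‖ < 1 → ∀ z, Fo z = FF r (G2 (p r) c a) z) ∧
      (1 ≤ ‖Λ‖ → ∀ z, Fo z = FF r (G2 (p r) c a) z * Bo (Λ⁻¹ * pj r z + -1)) := by
    rcases lt_or_ge ‖Λ‖ 1 with h | h
    · exact ⟨_, ho1 h.le, fun _ z => rfl, fun h' => absurd h' (not_le.2 h)⟩
    · exact ⟨_, ho2 h, fun h' => absurd h (not_le.2 h'), fun _ z => rfl⟩
  -- the inner part
  let A : ℂ → ℂ := fun z => ((b2 (z - 1) : ℝ) : ℂ) * AG r (fun q => p r (q.2.2 + q.1 - 1) *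
    (starRingEnd ℂ) (p r (q.2.2 - q.1 - 1))) a Λ z
  let F : Option (ℤ × ℤ) → ℂ → ℂ := fun j => match j with
    | none => if 1 ≤ ‖Λ‖ then FT1 Λ a A else 0
    | some q => fun z => Fo z *
        (if (r = true → q.2 = 0) then bu (z - ((q.1 : ℂ) + (q.2 : ℂ) * I)) else 0)
  have hF0 : F none = if 1 ≤ ‖Λ‖ then FT1 Λ a A else 0 := rfl
  have hF1 : ∀ q : ℤ × ℤ, F (some q) = fun z => Fo z *
        (if (r = true → q.2 = 0) then bu (z - ((q.1 : ℂ) + (q.2 : ℂ) * I)) else 0) :=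
    fun q => rfl
  refine ⟨F, fun ζ hζ => ?_, fun h => ?_, fun h => ?_, fun m n => ?_⟩
  · have h1 : HasSum (fun q : ℤ × ℤ => F (some q) ζ) (Fo ζ) := by
      have h2 := (hbu2 r ζ hζ).mul_left (Fo ζ)
      rw [mul_one] at h2
      exact h2
    have h3 := hasSum_opt (f := fun j => F j ζ) h1
    have h4 : F none ζ + Fo ζ = FF r (G2 (p r) c a) ζ := by
      rw [hF0]
      rcases lt_or_ge ‖Λ‖ 1 with h | h
      · rw [if_neg (not_le.2 h), hFo1 h ζ]
        simp
      · rw [if_pos h, hFo2 h ζ]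
        have hΛ0 : Λ ≠ 0 := by
          intro h0
          rw [h0, norm_zero] at h
          linarith
        have h5 := ft1_eq r (p r) c a ζ ha hra hrc hζ hΛ0
          (fun z => ((b2 (z - 1) : ℝ) : ℂ))
        rw [← hΛdef] at h5
        have h6 : FT1 Λ a A ζ = FF r (G2 (p r) c a) ζ * ((b2 (ζ / Λ - 1) : ℝ) : ℂ) := h5
        rw [h6, pj_of_Rl hζ]
        unfold Bo
        have h7 : Λ⁻¹ * ζ + -1 = ζ / Λ - 1 := by
          rw [div_eq_mul_inv]
          ring
        rw [h7]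
        ring
    rw [← h4]
    exact h3
  · rw [hF0, if_neg (not_le.2 h)]
  · refine ⟨A, ?_, by rw [hF0, if_pos h]⟩
    have h1 := hb2.mul_DB' (hA r a Λ ha ha' hra hrΛ) Metric.isOpen_ball (by
      intro z hz
      rw [Metric.mem_closedBall] at hz
      rw [Metric.mem_ball]
      linarith)
    have hΛ0 : (0 : ℝ) < ‖Λ‖ := by linarith
    have hexp : -(dg r : ℝ) / 2 ≤ 0 := by
      have : (0 : ℝ) ≤ dg r := Nat.cast_nonneg _
      linarith
    have h2 : (1 + ‖Λ‖) ^ (-(dg r : ℝ) / 2) ≤ ‖Λ‖ ^ (-(dg r : ℝ) / 2) :=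
      Real.rpow_le_rpow_of_nonpos hΛ0 (by linarith) hexp
    have h3 : 0 ≤ ‖Λ‖ ^ (-(dg r : ℝ) / 2) := Real.rpow_nonneg hΛ0.le _
    refine h1.mono ?_ ?_ le_rfl
    · calc 2 ^ N * (C2 * (CA r * (1 + ‖Λ‖) ^ (-(dg r : ℝ) / 2)))
          = K1 r * (1 + ‖Λ‖) ^ (-(dg r : ℝ) / 2) := by
            show _ = 2 ^ N * (C2 * CA r) * _
            ring
        _ ≤ K1 r * ‖Λ‖ ^ (-(dg r : ℝ) / 2) := mul_le_mul_of_nonneg_left h2 (hK1 r)
        _ ≤ CC * ‖Λ‖ ^ (-(dg r : ℝ) / 2) := mul_le_mul_of_nonneg_right hle1 h3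
    · exact mul_nonneg (by linarith [hK1 r]) h3
  · have hw : 0 ≤ (1 + ‖Λ‖ + ‖(m + n * I : ℂ)‖) ^ (-(k : ℝ)) :=
      Real.rpow_nonneg (by positivity) _
    have hCC0 : 0 ≤ CC * (1 + ‖Λ‖ + ‖(m + n * I : ℂ)‖) ^ (-(k : ℝ)) :=
      mul_nonneg (by linarith [hK1 r]) hw
    rw [hF1 (m, n)]
    by_cases hmn : r = true → n = 0
    · have hg : Rl r (m + n * I : ℂ) := by
        intro hr
        rw [hmn hr]
        simp
      have h1 := ds_piece k N Cb hCb (mul_nonneg hC1 hq0) hg hFo (hbu (m + n * I))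
      have e : (fun z => Fo z * (if (r = true → ((m, n) : ℤ × ℤ).2 = 0) then
          bu (z - ((((m, n) : ℤ × ℤ).1 : ℂ) + (((m, n) : ℤ × ℤ).2 : ℂ) * I)) else 0)) =
          fun z => Fo z * bu (z - (m + n * I)) := by
        funext z
        rw [if_pos hmn]
      rw [e]
      refine DS.mono h1 ?_ hCC0 le_rfl
      exact mul_le_mul_of_nonneg_right hle2 hw
    · have e : (fun z => Fo z * (if (r = true → ((m, n) : ℤ × ℤ).2 = 0) then
          bu (z - ((((m, n) : ℤ × ℤ).1 : ℂ) + (((m, n) : ℤ × ℤ).2 : ℂ) * I)) else 0)) =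
          fun _ => 0 := by
        funext z
        rw [if_neg hmn, mul_zero]
      rw [e]
      exact DB.zero _ _ _ fun z _ => ind_nonneg hCC0

end Pool.Agent.H1.SWL
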