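import Pool.Agent.H31.SW.TargetsG

/-!
# Board `swl_modules`, row WS: weighted sums over a lattice
-/

set_option autoImplicit false

open NumberField NumberField.InfinitePlace MeasureTheory Set Filter Complex
open scoped nonZeroDivisors ENNReal

namespace Pool.Agent.H1.SWL

open Pool.Agent.H31.SW
open Pool.Agent.H25.HK Pool.Agent.H23.LB Pool.Agent.H23.LC
open Pool.Agent.H29.DW (dg Rl lf wv Pos Wg cpar Ci om zs rv)

private lemma ws_dyadic (t : ℝ) (ht : 0 ≤ t) : ∃ j : ℕ, t ≤ 2 ^ j ∧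
    ((1 + t) ^ 3)⁻¹ ≤ 8 * (1 / 8) ^ j := by
  classical
  have hex : ∃ j : ℕ, t ≤ 2 ^ j := by
    obtain ⟨j, hj⟩ := pow_unbounded_of_one_lt t (by norm_num : (1 : ℝ) < 2)
    exact ⟨j, hj.le⟩
  refine ⟨Nat.find hex, Nat.find_spec hex, ?_⟩
  rcases Nat.eq_zero_or_pos (Nat.find hex) with h0 | h0
  · rw [h0, pow_zero, mul_one]
    have h1 : (1 : ℝ) ≤ (1 + t) ^ 3 := one_le_pow₀ (by linarith)
    have h2 : ((1 + t) ^ 3)⁻¹ ≤ 1 := inv_le_one_of_one_le₀ h1
    linarith
  · have h1 := Nat.find_min hex (m := Nat.find hex - 1) (by omega)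
    obtain ⟨j, hj⟩ : ∃ j, Nat.find hex = j + 1 := ⟨Nat.find hex - 1, by omega⟩
    rw [hj, Nat.add_sub_cancel] at h1
    rw [hj]
    push Not at h1
    have h2 : ((2 : ℝ) ^ j) ^ 3 ≤ (1 + t) ^ 3 :=
      pow_le_pow_left₀ (by positivity) (by linarith) 3
    have h3 : ((1 + t) ^ 3)⁻¹ ≤ (((2 : ℝ) ^ j) ^ 3)⁻¹ :=
      inv_anti₀ (by positivity) h2
    refine h3.trans (le_of_eq ?_)
    have h4 : ((2 : ℝ) ^ j) ^ 3 = 8 ^ j := by
      rw [← pow_mul, mul_comm j 3, pow_mul]
      norm_num
    rw [h4, pow_succ, one_div, inv_pow]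
    ring

private lemma ws_card (K : Type) [Field K] [NumberField K] :
    Fintype.card (InfinitePlace K) ≤ Module.finrank ℚ K := by
  have h1 := card_add_two_mul_card_eq_rank K
  have h2 := card_eq_nrRealPlaces_add_nrComplexPlaces K
  omega

private lemma ws_mult {K : Type} [Field K] (v : InfinitePlace K) :
    v.mult ≤ 2 := by
  unfold InfinitePlace.mult
  split_ifs <;> omega

theorem pf_WS (hCU : W_CU) : W_WS := by
  classical
  intro n hn
  obtain ⟨C0, hC0, hC⟩ := hCU n hn
  refine ⟨C0 * 16 ^ n, ?_, ?_⟩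
  · have : (1 : ℝ) ≤ 16 ^ n := one_le_pow₀ (by norm_num)
    nlinarith
  intro K _ _ hK L y ω J k hL hω hJ hk
  set W : ℝ := 1 + DD L y * PP J with hW
  have hDD : 0 ≤ DD L y := by
    unfold DD
    exact div_nonneg (Real.exp_pos _).le (by exact_mod_cast FractionalIdeal.absNorm_nonneg L)
  have hPP : 0 ≤ PP J := by
    unfold PP
    exact Finset.prod_nonneg fun v _ => pow_nonneg (hJ v).le _
  have hW1 : 1 ≤ W := by
    rw [hW]
    nlinarith [mul_nonneg hDD hPP]
  let f : {x : K // x ∈ L} → ℝ := fun x => ∏ v : InfinitePlace K,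
      (1 + ‖wv v x.1 y ω‖ / J v) ^ (-(k : ℝ))
  have ht0 : ∀ (x : K) (v : InfinitePlace K), 0 ≤ ‖wv v x y ω‖ / J v := fun x v =>
    div_nonneg (norm_nonneg _) (hJ v).le
  have hf0 : ∀ x, 0 ≤ f x := fun x =>
    Finset.prod_nonneg fun v _ => Real.rpow_nonneg (by linarith [ht0 x.1 v]) _
  -- the dyadic index
  choose jd hjd1 hjd2 using fun (x : K) (v : InfinitePlace K) =>
    ws_dyadic (‖wv v x y ω‖ / J v) (ht0 x v)
  have hfx : ∀ x, f x ≤ ∏ v : InfinitePlace K, (8 * (1 / 8 : ℝ) ^ jd x.1 v) := by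
    intro x
    refine Finset.prod_le_prod (fun v _ => Real.rpow_nonneg (by linarith [ht0 x.1 v]) _)
      fun v _ => ?_
    refine le_trans ?_ (hjd2 x.1 v)
    have h1 : (1 : ℝ) ≤ 1 + ‖wv v x.1 y ω‖ / J v := by linarith [ht0 x.1 v]
    have h2 : (1 + ‖wv v x.1 y ω‖ / J v) ^ (-(k : ℝ)) ≤
        (1 + ‖wv v x.1 y ω‖ / J v) ^ (-(3 : ℝ)) := by
      apply Real.rpow_le_rpow_of_exponent_le h1
      have : (3 : ℝ) ≤ k := by exact_mod_cast hk
      linarith
    refine h2.trans (le_of_eq ?_)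
    rw [Real.rpow_neg (by linarith)]
    norm_num
  have hcardP : Fintype.card (InfinitePlace K) ≤ n := hK ▸ ws_card K
  -- all finite sums are bounded
  have key : ∀ u : Finset {x : K // x ∈ L}, ∑ x ∈ u, f x ≤ C0 * 16 ^ n * W := by
    intro u
    obtain ⟨M, hM⟩ : ∃ M : ℕ, ∀ x ∈ u, ∀ v, jd x.1 v < M := by
      refine ⟨(u.sup fun x => Finset.univ.sup fun v => jd x.1 v) + 1, fun x hx v => ?_⟩
      have h1 : jd x.1 v ≤ Finset.univ.sup fun v => jd x.1 v :=
        Finset.le_sup (f := fun v => jd x.1 v) (Finset.mem_univ v)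
      have h2 : (Finset.univ.sup fun v => jd x.1 v) ≤
          (u.sup fun x => Finset.univ.sup fun v => jd x.1 v) :=
        Finset.le_sup (f := fun x : {x : K // x ∈ L} => Finset.univ.sup fun v => jd x.1 v) hx
      omega
    let T : Finset (InfinitePlace K → ℕ) := Fintype.piFinset fun _ => Finset.range M
    have hmaps : ∀ x ∈ u, (fun v => jd x.1 v) ∈ T := fun x hx =>
      Fintype.mem_piFinset.2 fun v => Finset.mem_range.2 (hM x hx v)
    have hcount : ∀ j : InfinitePlace K → ℕ,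
        ((u.filter fun x => (fun v => jd x.1 v) = j).card : ℝ) ≤
          C0 * ((∏ v, (4 : ℝ) ^ j v) * W) := by
      intro j
      obtain ⟨hfin, hle⟩ := hC K hK L y ω 0 (fun v => 2 ^ j v * J v) hL hω
        (fun v => mul_nonneg (by positivity) (hJ v).le)
      have h1 : (u.filter fun x => (fun v => jd x.1 v) = j).card ≤
          {x : K | x ∈ L ∧ ∀ v, ‖wv v x y ω - (0 : InfinitePlace K → ℂ) v‖ ≤
            2 ^ j v * J v}.ncard := by
        rw [← Set.ncard_coe_finset]
        refine Set.ncard_le_ncard_of_injOn (fun x => x.1) (fun x hx => ?_)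
          (fun x _ x' _ h => Subtype.ext h) hfin
        rw [Finset.mem_coe, Finset.mem_filter] at hx
        refine ⟨x.2, fun v => ?_⟩
        have h2 := hjd1 x.1 v
        rw [congrFun hx.2 v, div_le_iff₀ (hJ v)] at h2
        simpa using h2
      have h3 : PP (fun v => 2 ^ j v * J v) ≤ (∏ v, (4 : ℝ) ^ j v) * PP J := by
        unfold PP
        rw [← Finset.prod_mul_distrib]
        refine Finset.prod_le_prod (fun v _ => pow_nonneg
          (mul_nonneg (by positivity) (hJ v).le) _) fun v _ => ?_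
        rw [mul_pow]
        refine mul_le_mul_of_nonneg_right ?_ (pow_nonneg (hJ v).le _)
        calc ((2 : ℝ) ^ j v) ^ v.mult ≤ ((2 : ℝ) ^ j v) ^ 2 :=
              pow_le_pow_right₀ (one_le_pow₀ (by norm_num)) (ws_mult v)
          _ = 4 ^ j v := by
              rw [← pow_mul, mul_comm, pow_mul]
              norm_num
      have h4 : (1 : ℝ) ≤ ∏ v, (4 : ℝ) ^ j v := by
        calc (1 : ℝ) = ∏ _v : InfinitePlace K, (1 : ℝ) := by simp
          _ ≤ ∏ v, (4 : ℝ) ^ j v := Finset.prod_le_prod (fun v _ => zero_le_one)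
              fun v _ => one_le_pow₀ (by norm_num)
      calc ((u.filter fun x => (fun v => jd x.1 v) = j).card : ℝ) ≤ _ := by
            exact_mod_cast h1
        _ ≤ C0 * (1 + DD L y * PP (fun v => 2 ^ j v * J v)) := hle
        _ ≤ C0 * ((∏ v, (4 : ℝ) ^ j v) * W) := by
            apply mul_le_mul_of_nonneg_left _ (by linarith)
            have h5 : DD L y * PP (fun v => 2 ^ j v * J v) ≤
                DD L y * ((∏ v, (4 : ℝ) ^ j v) * PP J) := mul_le_mul_of_nonneg_left h3 hDD
            rw [hW]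
            nlinarith
    have hgeom : ∑ j ∈ T, ∏ v : InfinitePlace K, (1 / 2 : ℝ) ^ j v ≤ 2 ^ n := by
      have h1 : ∑ j ∈ T, ∏ v : InfinitePlace K, (1 / 2 : ℝ) ^ j v =
          ∏ _v : InfinitePlace K, ∑ i ∈ Finset.range M, (1 / 2 : ℝ) ^ i :=
        (Finset.prod_univ_sum (fun _ => Finset.range M) (fun _ i => (1 / 2 : ℝ) ^ i)).symm
      have h2 : ∑ i ∈ Finset.range M, (1 / 2 : ℝ) ^ i ≤ 2 := by
        have h3 : Summable fun i : ℕ => (1 / 2 : ℝ) ^ i := summable_geometric_two
        have h4 := h3.sum_le_tsum (Finset.range M) (fun i _ => by positivity)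
        rw [tsum_geometric_two] at h4
        exact h4
      rw [h1, Finset.prod_const, Finset.card_univ]
      calc (∑ i ∈ Finset.range M, (1 / 2 : ℝ) ^ i) ^ Fintype.card (InfinitePlace K)
          ≤ 2 ^ Fintype.card (InfinitePlace K) :=
            pow_le_pow_left₀ (Finset.sum_nonneg fun i _ => by positivity) h2 _
        _ ≤ 2 ^ n := pow_le_pow_right₀ (by norm_num) hcardP
    have h8 : (8 : ℝ) ^ Fintype.card (InfinitePlace K) ≤ 8 ^ n :=
      pow_le_pow_right₀ (by norm_num) hcardP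
    calc ∑ x ∈ u, f x ≤ ∑ x ∈ u, ∏ v : InfinitePlace K, (8 * (1 / 8 : ℝ) ^ jd x.1 v) :=
          Finset.sum_le_sum fun x _ => hfx x
      _ = ∑ j ∈ T, ∑ x ∈ u.filter (fun x => (fun v => jd x.1 v) = j),
            ∏ v : InfinitePlace K, (8 * (1 / 8 : ℝ) ^ jd x.1 v) :=
          (Finset.sum_fiberwise_of_maps_to hmaps _).symm
      _ = ∑ j ∈ T, ((u.filter fun x => (fun v => jd x.1 v) = j).card : ℝ) *
            ∏ v : InfinitePlace K, (8 * (1 / 8 : ℝ) ^ j v) := by
          refine Finset.sum_congr rfl fun j _ => ?_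
          rw [← nsmul_eq_mul, ← Finset.sum_const]
          refine Finset.sum_congr rfl fun x hx => ?_
          refine Finset.prod_congr rfl fun v _ => ?_
          rw [congrFun (Finset.mem_filter.1 hx).2 v]
      _ ≤ ∑ j ∈ T, C0 * ((∏ v, (4 : ℝ) ^ j v) * W) *
            ∏ v : InfinitePlace K, (8 * (1 / 8 : ℝ) ^ j v) :=
          Finset.sum_le_sum fun j _ => mul_le_mul_of_nonneg_right (hcount j)
            (Finset.prod_nonneg fun v _ => by positivity)
      _ = C0 * W * 8 ^ Fintype.card (InfinitePlace K) *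
            ∑ j ∈ T, ∏ v : InfinitePlace K, (1 / 2 : ℝ) ^ j v := by
          rw [Finset.mul_sum]
          refine Finset.sum_congr rfl fun j _ => ?_
          have h1 : (∏ v, (4 : ℝ) ^ j v) * ∏ v : InfinitePlace K, (8 * (1 / 8 : ℝ) ^ j v) =
              8 ^ Fintype.card (InfinitePlace K) * ∏ v : InfinitePlace K, (1 / 2 : ℝ) ^ j v := by
            rw [← Finset.prod_mul_distrib, ← Finset.card_univ, ← Finset.prod_const,
              ← Finset.prod_mul_distrib]
            refine Finset.prod_congr rfl fun v _ => ?_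
            have : (1 / 2 : ℝ) ^ j v = 4 ^ j v * (1 / 8) ^ j v := by
              rw [← mul_pow]
              norm_num
            rw [this]
            ring
          calc C0 * ((∏ v, (4 : ℝ) ^ j v) * W) * ∏ v : InfinitePlace K, (8 * (1 / 8 : ℝ) ^ j v)
              = C0 * W * ((∏ v, (4 : ℝ) ^ j v) *
                  ∏ v : InfinitePlace K, (8 * (1 / 8 : ℝ) ^ j v)) := by ring
            _ = _ := by rw [h1]; ring
      _ ≤ C0 * W * 8 ^ n * 2 ^ n := by
          have hCW : 0 ≤ C0 * W := mul_nonneg (by linarith) (by linarith)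
          exact mul_le_mul (mul_le_mul_of_nonneg_left h8 hCW) hgeom
            (Finset.sum_nonneg fun j _ => Finset.prod_nonneg fun v _ => by positivity)
            (mul_nonneg hCW (by positivity))
      _ = C0 * 16 ^ n * W := by
          have : (16 : ℝ) ^ n = 8 ^ n * 2 ^ n := by
            rw [← mul_pow]
            norm_num
          rw [this]
          ring
  exact ⟨summable_of_sum_le hf0 key, Real.tsum_le_of_sum_le hf0 key⟩

end Pool.Agent.H1.SWL
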